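import Pool.Agent.W321.SQ.Stm
import Pool.Agent.H115R2.Base
import Pool.Agent.H276R3.GE

/-!
SQ-F1: trees with a vertex adjacent to many leaves and with few other leaves are graceful.
-/

set_option autoImplicit false

namespace Pool.Agent.W405.SQ

open Finset Pool.Agent.W321.SP Pool.Agent.W321.SQ

theorem leaf_iff {V : Type} [Fintype V] {T : SimpleGraph V} {v : V} {par : V → V} {rk : V → ℕ}
    (hrt : Rt V v par rk) (hadj : ∀ x, x ≠ v → T.Adj (par x) x)
    (hpar : ∀ a b, T.Adj a b → (a ≠ v ∧ par a = b) ∨ (b ≠ v ∧ par b = a)) {x : V} (hx : x ≠ v) :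
    (T.neighborSet x).ncard = 1 ↔ Chl V v par x := by
  constructor
  · intro h y hy hyx
    obtain ⟨w, hw⟩ := Set.ncard_eq_one.1 h
    have h1 : par x ∈ T.neighborSet x := (hadj x hx).symm
    have h2 : y ∈ T.neighborSet x := by
      have := hadj y hy
      rw [hyx] at this
      exact this
    rw [hw, Set.mem_singleton_iff] at h1 h2
    have h3 := hrt.rp x hx
    have h4 := hrt.rp y hy
    rw [hyx] at h4
    rw [h1, ← h2] at h3
    omega
  · intro h
    rw [Set.ncard_eq_one]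
    refine ⟨par x, ?_⟩
    ext y
    rw [Set.mem_singleton_iff, SimpleGraph.mem_neighborSet]
    constructor
    · intro hy
      rcases hpar x y hy with h1 | h1
      · exact h1.2.symm
      · exact absurd h1.2 (h y h1.1)
    · rintro rfl
      exact (hadj x hx).symm

theorem adj_iff {V : Type} {T : SimpleGraph V} {v : V} {par : V → V}
    (hadj : ∀ x, x ≠ v → T.Adj (par x) x)
    (hpar : ∀ a b, T.Adj a b → (a ≠ v ∧ par a = b) ∨ (b ≠ v ∧ par b = a)) {x : V} :
    T.Adj v x ↔ x ≠ v ∧ par x = v := by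
  constructor
  · intro h
    rcases hpar v x h with h1 | h1
    · exact absurd rfl h1.1
    · exact h1
  · rintro ⟨h1, h2⟩
    have := hadj x h1
    rwa [h2] at this

theorem z_f1 (hCore : CoreStm) (hCh : ChStm) (hCl : ClStm) : F1Stm := by
  intro ε hε
  have hε' : 0 < min ε (1 / 10) := lt_min hε (by norm_num)
  obtain ⟨δ0, r0, hδ0, core⟩ := hCore (min ε (1 / 10)) (1 / 400) hε' (min_le_right _ _)
    (by norm_num)
  obtain ⟨r1, hr1⟩ : ∃ r1 : ℕ, r1 = max r0 (max 1000 ⌈5 / δ0⌉₊) := ⟨_, rfl⟩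
  have hr10 : r0 ≤ r1 := by rw [hr1]; exact le_max_left _ _
  have hr1a : 1000 ≤ r1 := by rw [hr1]; exact (le_max_left _ _).trans (le_max_right _ _)
  have hr1b : 5 / δ0 ≤ (r1 : ℝ) := by
    refine (Nat.le_ceil _).trans ?_
    rw [hr1]
    exact_mod_cast (le_max_right _ _).trans (le_max_right _ _)
  refine ⟨min (δ0 / 10) (1 / 10 ^ 4), ⌈(10 : ℝ) ^ 8 * ((r1 : ℝ) + 1) ^ 2 * Real.log ((r1 : ℝ) + 2)⌉₊,
    lt_min (by positivity) (by norm_num), ?_⟩
  intro V _ T hT hm v hL hM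
  classical
  obtain ⟨par, hp1, hp2⟩ := Pool.Agent.H115R2.exists_parent T hT v
  have hrt : Rt V v par (T.dist v) := ⟨SimpleGraph.dist_self, fun x hx => (hp1 x hx).2⟩
  have hadj : ∀ x, x ≠ v → T.Adj (par x) x := fun x hx => (hp1 x hx).1
  have hpar : ∀ a b, T.Adj a b → (a ≠ v ∧ par a = b) ∨ (b ≠ v ∧ par b = a) := by
    intro a b hab
    rcases hT.dist_eq_dist_add_one_of_adj v hab with h | h
    · left
      refine ⟨?_, hp2 a b hab h⟩
      rintro rfl
      simp at h
    · right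
      refine ⟨?_, hp2 b a hab.symm h⟩
      rintro rfl
      simp at h
  obtain ⟨L, hLd⟩ : ∃ L : Finset V, L = univ.filter (fun x => x ≠ v ∧ par x = v ∧ Chl V v par x) :=
    ⟨_, rfl⟩
  obtain ⟨M, hMd⟩ : ∃ M : Finset V, M = univ.filter (fun x => x ≠ v ∧ par x ≠ v ∧ Chl V v par x) :=
    ⟨_, rfl⟩
  have hLm : ∀ x, x ∈ L ↔ x ≠ v ∧ par x = v ∧ Chl V v par x := by
    intro x; rw [hLd, mem_filter]; simp
  have hMm : ∀ x, x ∈ M ↔ x ≠ v ∧ par x ≠ v ∧ Chl V v par x := by
    intro x; rw [hMd, mem_filter]; simp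
  have eL : {w : V | T.Adj v w ∧ (T.neighborSet w).ncard = 1}.ncard = L.card := by
    have : {w : V | T.Adj v w ∧ (T.neighborSet w).ncard = 1} = (L : Set V) := by
      ext x
      rw [mem_coe, hLm]
      change (T.Adj v x ∧ (T.neighborSet x).ncard = 1) ↔ _
      rw [adj_iff hadj hpar]
      constructor
      · rintro ⟨⟨h1, h2⟩, h3⟩
        exact ⟨h1, h2, (leaf_iff hrt hadj hpar h1).1 h3⟩
      · rintro ⟨h1, h2, h3⟩
        exact ⟨⟨h1, h2⟩, (leaf_iff hrt hadj hpar h1).2 h3⟩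
    rw [this, Set.ncard_coe_finset]
  have eM : {w : V | w ≠ v ∧ ¬ T.Adj v w ∧ (T.neighborSet w).ncard = 1}.ncard = M.card := by
    have : {w : V | w ≠ v ∧ ¬ T.Adj v w ∧ (T.neighborSet w).ncard = 1} = (M : Set V) := by
      ext x
      rw [mem_coe, hMm]
      change (x ≠ v ∧ ¬ T.Adj v x ∧ (T.neighborSet x).ncard = 1) ↔ _
      rw [adj_iff hadj hpar]
      constructor
      · rintro ⟨h1, h2, h3⟩
        exact ⟨h1, fun h => h2 ⟨h1, h⟩, (leaf_iff hrt hadj hpar h1).1 h3⟩
      · rintro ⟨h1, h2, h3⟩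
        exact ⟨h1, fun h => h2 h.2, (leaf_iff hrt hadj hpar h1).2 h3⟩
    rw [this, Set.ncard_coe_finset]
  rw [eL] at hL hM
  rw [eM] at hM
  obtain ⟨r, hr⟩ : ∃ r : ℕ, r = ((univ.erase v) \ L).card := ⟨_, rfl⟩
  have hLsub : L ⊆ univ.erase v := by
    intro x hx
    rw [mem_erase]
    exact ⟨((hLm x).1 hx).1, mem_univ x⟩
  have hcard : Fintype.card V = L.card + r + 1 := by
    have h1 : ((univ.erase v) \ L).card + L.card = (univ.erase v : Finset V).card :=
      card_sdiff_add_card_eq_card hLsub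
    have h2 : (univ.erase v : Finset V).card + 1 = (univ : Finset V).card :=
      card_erase_add_one (mem_univ v)
    rw [card_univ] at h2
    omega
  have hedge := Pool.Agent.H115R2.ncard_edge T hT
  have hme : T.edgeSet.ncard = L.card + r := by omega
  have hmr : ((T.edgeSet.ncard : ℕ) : ℝ) = (L.card : ℝ) + r := by
    rw [hme]; push_cast; ring
  rw [hmr] at hL hM
  have hM2 : (M.card : ℝ) ≤ min (δ0 / 10) (1 / 10 ^ 4) * r := by
    refine hM.trans (le_of_eq ?_)
    ring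
  by_cases hrr : r1 ≤ r
  · have hrr' : (r1 : ℝ) ≤ r := by exact_mod_cast hrr
    have hr0 : (0 : ℝ) ≤ r := by positivity
    have hMa : (M.card : ℝ) ≤ δ0 / 10 * r :=
      hM2.trans (mul_le_mul_of_nonneg_right (min_le_left _ _) hr0)
    have hMb : (M.card : ℝ) ≤ 1 / 10 ^ 4 * r :=
      hM2.trans (mul_le_mul_of_nonneg_right (min_le_right _ _) hr0)
    have hMc : 10000 * M.card ≤ r := by
      have : (10000 : ℝ) * M.card ≤ r := by linarith
      exact_mod_cast this
    obtain ⟨K, Gd, c₀, c₁, d, hclu, hK⟩ := hCl V v par (T.dist v) L M hrt hLm hMm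
      (by
        rw [← card_pos, ← hr]
        omega)
    obtain ⟨a, ha1, ha2⟩ := hCh V v par (T.dist v) L M K (r / 200) hrt hLm hMm
      (by
        rw [← hr]
        omega)
    refine core V T hT v par (T.dist v) hrt hadj hpar L r (fun x hx => (hLm x).1 hx) hcard
      (hr10.trans hrr) ?_ K Gd c₀ c₁ d hclu ?_ (r / 200) a ha1 ha2 ?_
    · refine le_trans ?_ hL
      exact mul_le_mul_of_nonneg_right (min_le_left _ _) (by positivity)
    · have h1 : (K.card : ℝ) ≤ 3 * M.card + 3 := by exact_mod_cast hK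
      have h2 : 5 ≤ δ0 * r := by
        have h3 : 5 / δ0 ≤ (r : ℝ) := hr1b.trans hrr'
        rw [div_le_iff₀ hδ0] at h3
        linarith
      linarith
    · have h1 : r ≤ 400 * (r / 200) := by omega
      have h2 : (r : ℝ) ≤ 400 * ((r / 200 : ℕ) : ℝ) := by exact_mod_cast h1
      linarith
  · have hm' : (10 : ℝ) ^ 8 * ((r1 : ℝ) + 1) ^ 2 * Real.log ((r1 : ℝ) + 2) ≤
        (T.edgeSet.ncard : ℝ) := (Nat.le_ceil _).trans (by exact_mod_cast hm)
    have hsub : {x : V | x ≠ v ∧ ¬ T.Adj v x} ⊆ (((univ.erase v) \ L : Finset V) : Set V) := by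
      intro x hx
      rw [mem_coe, mem_sdiff, mem_erase, hLm]
      refine ⟨⟨hx.1, mem_univ x⟩, fun h => hx.2 ?_⟩
      exact (adj_iff hadj hpar).2 ⟨h.1, h.2.1⟩
    have hn : {x : V | x ≠ v ∧ ¬ T.Adj v x}.ncard ≤ r1 := by
      refine (Set.ncard_le_ncard hsub (Set.toFinite _)).trans ?_
      rw [Set.ncard_coe_finset]
      omega
    exact Pool.Agent.H276R3.GE.main T hT v r1 hn hm'

end Pool.Agent.W405.SQ
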